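import Pool.Agent.Helper13.JS.St

/-!
# Project JS (helper13), MP_924f75_nt: module VA (lower bound for one `V`)
-/

set_option autoImplicit false

noncomputable section

namespace Pool.Agent.Helper66.JS

open Finset ArithmeticFunction
open Pool.Agent.Helper13.JS
open Pool.Agent.Helper15.AB (IsW Th SP SN)
open Pool.Agent.Helper60.GP (II)

theorem mem_On {x : ℕ} {a : ℕ → ℤ} {p : ℕ} :
    p ∈ On x a ↔ (1 ≤ p ∧ p ≤ x) ∧ p.Prime ∧ (p : ℤ) ∣ a p := by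
  unfold On
  rw [Finset.mem_filter, Finset.mem_Icc]

theorem mem_Qs {x : ℕ} {κ : ℝ} {a : ℕ → ℤ} {s : ℕ} :
    s ∈ Qs x κ a ↔ (3 ≤ s ∧ s ≤ x) ∧ s.Prime ∧ (s : ℝ) ≤ (x : ℝ) ^ κ ∧ ¬ (s : ℤ) ∣ a s := by
  unfold Qs
  rw [Finset.mem_filter, Finset.mem_Icc]

theorem fac_nonneg {p : ℕ} (hp : p.Prime) : 0 ≤ 1 - 1 / (p : ℝ) := by
  have h2 : (2 : ℝ) ≤ p := by exact_mod_cast hp.two_le
  have : 1 / (p : ℝ) ≤ 1 := by
    rw [div_le_one (by linarith)]
    linarith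
  linarith

theorem fac_le_one (p : ℕ) : 1 - 1 / (p : ℝ) ≤ 1 := by
  have : 0 ≤ 1 / (p : ℝ) := by positivity
  linarith

/-- the full product over `E` is below `PE E N` -/
theorem le_PE {E : Finset ℕ} (hE : ∀ p ∈ E, p.Prime) (N : ℕ) :
    ∏ p ∈ E, (1 - 1 / (p : ℝ)) ≤ PE E N := by
  unfold PE
  rw [← Finset.prod_filter_mul_prod_filter_not E (· ≤ N)]
  have h1 : 0 ≤ ∏ p ∈ E.filter (· ≤ N), (1 - 1 / (p : ℝ)) :=
    Finset.prod_nonneg fun p hp => fac_nonneg (hE p (Finset.mem_filter.1 hp).1)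
  have h2 : ∏ p ∈ E.filter (fun p => ¬ p ≤ N), (1 - 1 / (p : ℝ)) ≤ 1 :=
    Finset.prod_le_one (fun p hp => fac_nonneg (hE p (Finset.mem_filter.1 hp).1))
      fun p _ => fac_le_one p
  exact mul_le_of_le_one_right h1 h2

/-- the two products together -/
theorem prods : ∃ c : ℝ, 0 < c ∧ ∀ (x : ℕ) (κ : ℝ) (a : ℕ → ℤ), 2 ≤ x →
    c / Real.log x ≤ (∏ s ∈ Qs x κ a, (1 - 1 / ((s : ℝ) - 1))) *
      ∏ p ∈ On x a, (1 - 1 / (p : ℝ)) := by
  classical
  obtain ⟨C, hC, hm⟩ := Pool.Agent.Helper13.JC.mert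
  refine ⟨1 / 2 * Real.exp (-C - 5), by positivity, fun x κ a hx => ?_⟩
  set Q := Qs x κ a with hQ
  set O := (On x a).erase 2 with hO
  have hO3 : ∀ s ∈ O, 3 ≤ s ∧ s.Prime ∧ s ≤ x ∧ (s : ℤ) ∣ a s := by
    intro s hs
    rw [hO, Finset.mem_erase, mem_On] at hs
    obtain ⟨h1, h2, h3, h4⟩ := hs
    have := h3.two_le
    exact ⟨by omega, h3, h2.2, h4⟩
  have hQ3 : ∀ s ∈ Q, 3 ≤ s ∧ s.Prime ∧ s ≤ x ∧ ¬ (s : ℤ) ∣ a s := by
    intro s hs
    rw [hQ, mem_Qs] at hs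
    exact ⟨hs.1.1, hs.2.1, hs.1.2, hs.2.2.2⟩
  have hdis : Disjoint Q O := by
    rw [Finset.disjoint_left]
    intro s h1 h2
    exact (hQ3 s h1).2.2.2 (hO3 s h2).2.2.2
  have hU : ∀ s ∈ Q ∪ O, 3 ≤ s := by
    intro s hs
    rcases Finset.mem_union.1 hs with h | h
    · exact (hQ3 s h).1
    · exact (hO3 s h).1
  have h1 := Pool.Agent.Helper13.JC.prod_ge hU
  rw [Finset.prod_union hdis] at h1
  -- sum bound
  have h2 : ∑ s ∈ Q ∪ O, 1 / (s : ℝ) ≤ ∑ s ∈ (Icc 1 x).filter Nat.Prime, 1 / (s : ℝ) := by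
    refine Finset.sum_le_sum_of_subset_of_nonneg ?_ fun s _ _ => by positivity
    intro s hs
    rw [Finset.mem_filter, Finset.mem_Icc]
    rcases Finset.mem_union.1 hs with h | h
    · exact ⟨⟨by have := (hQ3 s h).1; omega, (hQ3 s h).2.2.1⟩, (hQ3 s h).2.1⟩
    · exact ⟨⟨by have := (hO3 s h).1; omega, (hO3 s h).2.2.1⟩, (hO3 s h).2.1⟩
  have h3 := (abs_le.1 (hm x hx)).2
  have hx1 : (1 : ℝ) < x := by exact_mod_cast (by omega : 1 < x)
  have hl : 0 < Real.log x := Real.log_pos hx1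
  have h4 : Real.exp (-C - 5) / Real.log x ≤
      Real.exp (-(∑ s ∈ Q ∪ O, 1 / (s : ℝ)) - 5) := by
    have e1 : Real.exp (-C - 5) / Real.log x = Real.exp (-C - 5 - Real.log (Real.log x)) := by
      rw [Real.exp_sub (-C - 5) (Real.log (Real.log x)), Real.exp_log hl]
    rw [e1]
    refine Real.exp_le_exp.2 ?_
    linarith
  -- the product over O
  have hq0 : 0 ≤ ∏ s ∈ Q, (1 - 1 / ((s : ℝ) - 1)) := by
    refine Finset.prod_nonneg fun s hs => ?_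
    have h5 : (3 : ℝ) ≤ s := by exact_mod_cast (hQ3 s hs).1
    have : 1 / ((s : ℝ) - 1) ≤ 1 := by
      rw [div_le_one (by linarith)]
      linarith
    linarith
  have h5 : ∏ s ∈ O, (1 - 1 / ((s : ℝ) - 1)) ≤ ∏ s ∈ O, (1 - 1 / (s : ℝ)) := by
    refine Finset.prod_le_prod (fun s hs => ?_) fun s hs => ?_
    · have h5 : (3 : ℝ) ≤ s := by exact_mod_cast (hO3 s hs).1
      have : 1 / ((s : ℝ) - 1) ≤ 1 := by
        rw [div_le_one (by linarith)]
        linarith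
      linarith
    · have h5 : (3 : ℝ) ≤ s := by exact_mod_cast (hO3 s hs).1
      have : 1 / (s : ℝ) ≤ 1 / ((s : ℝ) - 1) :=
        one_div_le_one_div_of_le (by linarith) (by linarith)
      linarith
  have hO0 : 0 ≤ ∏ s ∈ O, (1 - 1 / (s : ℝ)) :=
    Finset.prod_nonneg fun s hs => fac_nonneg (hO3 s hs).2.1
  have h6 : 1 / 2 * ∏ s ∈ O, (1 - 1 / (s : ℝ)) ≤ ∏ p ∈ On x a, (1 - 1 / (p : ℝ)) := by
    by_cases h : 2 ∈ On x a
    · rw [← Finset.mul_prod_erase (On x a) _ h]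
      have : (1 : ℝ) - 1 / ((2 : ℕ) : ℝ) = 1 / 2 := by norm_num
      rw [this]
    · have : O = On x a := by rw [hO, Finset.erase_eq_of_notMem h]
      rw [this]
      have h7 : 0 ≤ ∏ s ∈ On x a, (1 - 1 / (s : ℝ)) := by rw [← this]; exact hO0
      linarith
  calc 1 / 2 * Real.exp (-C - 5) / Real.log x = 1 / 2 * (Real.exp (-C - 5) / Real.log x) := by ring
    _ ≤ 1 / 2 * ((∏ s ∈ Q, (1 - 1 / ((s : ℝ) - 1))) * ∏ s ∈ O, (1 - 1 / ((s : ℝ) - 1))) := by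
        refine mul_le_mul_of_nonneg_left (h4.trans h1) (by norm_num)
    _ ≤ 1 / 2 * ((∏ s ∈ Q, (1 - 1 / ((s : ℝ) - 1))) * ∏ s ∈ O, (1 - 1 / (s : ℝ))) := by
        refine mul_le_mul_of_nonneg_left (mul_le_mul_of_nonneg_left h5 hq0) (by norm_num)
    _ = (∏ s ∈ Q, (1 - 1 / ((s : ℝ) - 1))) * (1 / 2 * ∏ s ∈ O, (1 - 1 / (s : ℝ))) := by ring
    _ ≤ _ := mul_le_mul_of_nonneg_left h6 hq0

/-- the sum of `al` -/
theorem sum_al (x : ℕ) (a : ℕ → ℤ) (M : ℕ) :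
    (Fr (On x a) (M / 2) : ℝ) ≤ ∑ m ∈ Icc 1 M, al x a m := by
  classical
  have h1 : ∑ m ∈ Icc 1 M, al x a m = (((Icc 1 M).filter fun m =>
      (∀ p ∈ On x a, ¬ p ∣ m) ∧ ((2 : ℤ) ∣ a 2 ∨ 2 ∣ m)).card : ℝ) := by
    unfold al
    rw [Finset.sum_boole]
  rw [h1]
  unfold Fr
  have h2 : ((Icc 1 (M / 2)).filter (fun n => ∀ p ∈ On x a, ¬ p ∣ n)).card ≤
      ((Icc 1 M).filter fun m =>
        (∀ p ∈ On x a, ¬ p ∣ m) ∧ ((2 : ℤ) ∣ a 2 ∨ 2 ∣ m)).card := by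
    by_cases h : (2 : ℤ) ∣ a 2
    · refine Finset.card_le_card ?_
      intro m hm
      rw [Finset.mem_filter, Finset.mem_Icc] at hm ⊢
      exact ⟨⟨hm.1.1, by omega⟩, hm.2, Or.inl h⟩
    · refine Finset.card_le_card_of_injOn (fun m => 2 * m) ?_ ?_
      · intro m hm
        rw [Finset.mem_coe, Finset.mem_filter, Finset.mem_Icc] at hm
        rw [Finset.mem_coe, Finset.mem_filter, Finset.mem_Icc]
        have hm1 := hm.1
        refine ⟨⟨?_, ?_⟩, ?_, Or.inr ⟨m, rfl⟩⟩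
        · show 1 ≤ 2 * m
          omega
        · show 2 * m ≤ M
          omega
        intro p hp hd
        have hp' := mem_On.1 hp
        have hp2 : p ≠ 2 := by
          rintro rfl
          exact h (by exact_mod_cast hp'.2.2)
        rcases (Nat.Prime.dvd_mul hp'.2.1).1 hd with h3 | h3
        · exact hp2 ((Nat.prime_dvd_prime_iff_eq hp'.2.1 Nat.prime_two).1 h3)
        · exact hm.2 p hp h3
      · intro m _ n _ he
        have : 2 * m = 2 * n := he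
        omega
  exact_mod_cast h2

theorem hVA (hSL : StSL) : StVA := by
  intro ω hω
  obtain ⟨κ, c, hκ, hκ4, hc, hS⟩ := hSL ω hω
  obtain ⟨c₂, hc₂, hP⟩ := prods
  refine ⟨κ / 2, by positivity, by linarith, fun c₁ hc₁ => ⟨c * c₁ * c₂ / 36, by positivity,
    fun κ₁ hκ₁ hκ₁2 => ?_⟩⟩
  obtain ⟨X₀, hX₀, hS'⟩ := hS (κ₁ / 3) (by positivity)
  have hccc : 0 < c * c₁ * c₂ := by positivity
  refine ⟨max (max 2401 (3 * X₀)) (Real.exp (48 / (c * c₁ * c₂))),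
    le_trans (by norm_num) ((le_max_left _ _).trans (le_max_left _ _)), ?_⟩
  intro x y a V hx hxy hyx hV1 hV2 hD
  have hx1 : (2401 : ℝ) ≤ x := ((le_max_left _ _).trans (le_max_left _ _)).trans hx
  have hx2 : 3 * X₀ ≤ x := ((le_max_right _ _).trans (le_max_left _ _)).trans hx
  have hx3 : Real.exp (48 / (c * c₁ * c₂)) ≤ x := (le_max_right _ _).trans hx
  have hx0 : (0 : ℝ) < x := by linarith
  have hxyR : (x : ℝ) ≤ y := by exact_mod_cast hxy
  have hyxR : (y : ℝ) ≤ (x : ℝ) ^ 2 := by exact_mod_cast hyx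
  have hy0 : (0 : ℝ) < y := by linarith
  have hVpos : 0 < V := lt_of_lt_of_le (Real.rpow_pos_of_pos hx0 _) hV1
  have hxN : 2 ≤ x := by
    have : (2 : ℝ) ≤ x := by linarith
    exact_mod_cast this
  have hlx : 48 / (c * c₁ * c₂) ≤ Real.log x := by
    rw [← Real.log_exp (48 / (c * c₁ * c₂))]
    exact Real.log_le_log (Real.exp_pos _) hx3
  have hlpos : 0 < Real.log x := lt_of_lt_of_le (by positivity) hlx
  -- t = x^(1/4), x^(1/2) = t^2
  set t : ℝ := (x : ℝ) ^ (1 / 4 : ℝ) with ht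
  have ht0 : 0 < t := Real.rpow_pos_of_pos hx0 _
  have ht2 : (x : ℝ) ^ (1 / 2 : ℝ) = t ^ 2 := by
    rw [ht, ← Real.rpow_natCast, ← Real.rpow_mul hx0.le]
    norm_num
  have ht4 : (x : ℝ) = t ^ 4 := by
    rw [ht, ← Real.rpow_natCast, ← Real.rpow_mul hx0.le]
    norm_num
  have ht7 : 7 ≤ t := by
    by_contra hcon
    push Not at hcon
    have h1 : t ^ 4 < 7 ^ 4 := pow_lt_pow_left₀ hcon ht0.le (by norm_num)
    have h2 : (x : ℝ) < 2401 := by
      calc (x : ℝ) = t ^ 4 := ht4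
        _ < 7 ^ 4 := h1
        _ = 2401 := by norm_num
    linarith
  -- apply SL
  have hy3 : X₀ ≤ (y : ℝ) / 3 := by
    rw [le_div_iff₀ (by norm_num)]
    linarith
  have hA1 : ((y : ℝ) / 3) ^ (κ₁ / 3) ≤ V := by
    refine le_trans ?_ hV1
    have h1 : ((y : ℝ) / 3) ^ (κ₁ / 3) ≤ ((x : ℝ) ^ 2) ^ (κ₁ / 3) :=
      Real.rpow_le_rpow (by positivity) (by linarith) (by positivity)
    refine h1.trans ?_
    rw [← Real.rpow_natCast, ← Real.rpow_mul hx0.le]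
    refine Real.rpow_le_rpow_of_exponent_le (by linarith) ?_
    push_cast
    linarith
  have hA2 : V ≤ ((y : ℝ) / 3) ^ (1 - κ₁ / 3) := by
    refine hV2.trans ?_
    have hb : (1 : ℝ) ≤ (x : ℝ) / 3 := by
      rw [le_div_iff₀ (by norm_num)]
      linarith
    have h1 : ((x : ℝ) / 3) ^ (5 / 6 : ℝ) ≤ ((y : ℝ) / 3) ^ (1 - κ₁ / 3) := by
      refine (Real.rpow_le_rpow_of_exponent_le hb (by linarith : (5 / 6 : ℝ) ≤ 1 - κ₁ / 3)).trans ?_
      exact Real.rpow_le_rpow (by positivity) (by linarith) (by linarith)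
    refine le_trans ?_ h1
    -- x ^ (1/2) ≤ (x/3)^(5/6): cube both after raising: use x/3 ≥ x^(3/5)
    have h2 : (x : ℝ) ^ (3 / 5 : ℝ) ≤ (x : ℝ) / 3 := by
      have h3 : (3 : ℝ) ≤ (x : ℝ) ^ (2 / 5 : ℝ) := by
        have h4 : (16 : ℝ) ^ (2 / 5 : ℝ) ≤ (x : ℝ) ^ (2 / 5 : ℝ) :=
          Real.rpow_le_rpow (by norm_num) (by linarith) (by norm_num)
        refine le_trans ?_ h4
        have h5 : ((3 : ℝ) ^ (5 / 2 : ℝ)) ^ (2 / 5 : ℝ) ≤ (16 : ℝ) ^ (2 / 5 : ℝ) := by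
          refine Real.rpow_le_rpow (by positivity) ?_ (by norm_num)
          have h6 : (3 : ℝ) ^ (5 / 2 : ℝ) = 9 * Real.sqrt 3 := by
            rw [Real.sqrt_eq_rpow, show (9 : ℝ) = 3 ^ (2 : ℝ) by norm_num,
              ← Real.rpow_add (by norm_num)]
            norm_num
          rw [h6]
          have h7 : Real.sqrt 3 ≤ 16 / 9 := by
            rw [Real.sqrt_le_left (by norm_num)]
            norm_num
          linarith
        rw [← Real.rpow_mul (by norm_num)] at h5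
        norm_num at h5 ⊢
        exact h5
      rw [le_div_iff₀ (by norm_num)]
      have h4 : (x : ℝ) = (x : ℝ) ^ (3 / 5 : ℝ) * (x : ℝ) ^ (2 / 5 : ℝ) := by
        rw [← Real.rpow_add hx0]
        norm_num
      calc (x : ℝ) ^ (3 / 5 : ℝ) * 3 ≤ (x : ℝ) ^ (3 / 5 : ℝ) * (x : ℝ) ^ (2 / 5 : ℝ) :=
            mul_le_mul_of_nonneg_left h3 (Real.rpow_pos_of_pos hx0 _).le
        _ = x := h4.symm
    calc (x : ℝ) ^ (1 / 2 : ℝ) = ((x : ℝ) ^ (3 / 5 : ℝ)) ^ (5 / 6 : ℝ) := by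
          rw [← Real.rpow_mul hx0.le]
          norm_num
      _ ≤ ((x : ℝ) / 3) ^ (5 / 6 : ℝ) := Real.rpow_le_rpow (Real.rpow_pos_of_pos hx0 _).le h2
          (by norm_num)
  have hA3 : ∀ s ∈ Qs x (κ / 2) a, s.Prime ∧ 3 ≤ s ∧ (s : ℝ) ≤ ((y : ℝ) / 3) ^ κ := by
    intro s hs
    rw [mem_Qs] at hs
    refine ⟨hs.2.1, hs.1.1, hs.2.2.1.trans ?_⟩
    have h1 : (x : ℝ) ^ (1 / 2 : ℝ) ≤ (y : ℝ) / 3 := by
      rw [ht2, le_div_iff₀ (by norm_num)]
      have : t ^ 2 * 3 ≤ t ^ 4 := by nlinarith [sq_nonneg (t ^ 2), ht7]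
      linarith
    calc (x : ℝ) ^ (κ / 2) = ((x : ℝ) ^ (1 / 2 : ℝ)) ^ κ := by
          rw [← Real.rpow_mul hx0.le]
          congr 1
          ring
      _ ≤ ((y : ℝ) / 3) ^ κ := Real.rpow_le_rpow (Real.rpow_pos_of_pos hx0 _).le h1 hκ.le
  have hA4 : ∀ s ∈ Qs x (κ / 2) a, ¬ (s : ℤ) ∣ a s := fun s hs => (mem_Qs.1 hs).2.2.2
  have hA5 : ∀ m, 0 ≤ al x a m ∧ al x a m ≤ 1 := by
    intro m
    unfold al
    split_ifs <;> norm_num
  have hmain := hS' ((y : ℝ) / 3) V (Qs x (κ / 2) a) a (al x a) hy3 hA1 hA2 hA3 hA4 hA5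
  have hfl : (y : ℝ) / 3 / V = (y : ℝ) / (3 * V) := by rw [div_div]
  rw [hfl] at hmain
  refine le_trans ?_ hmain
  set M : ℕ := ⌊(y : ℝ) / (3 * V)⌋₊ with hM
  -- bounds for M
  have hMlow : (y : ℝ) / (3 * V) - 1 < M := by
    have := Nat.lt_floor_add_one ((y : ℝ) / (3 * V))
    rw [← hM] at this
    linarith
  have hMup : (M : ℝ) ≤ (y : ℝ) / (3 * V) := Nat.floor_le (by positivity)
  have hyV : t ^ 2 / 3 ≤ (y : ℝ) / (3 * V) := by
    rw [div_le_div_iff₀ (by norm_num) (by positivity)]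
    have h1 : V ≤ t ^ 2 := by rw [← ht2]; exact hV2
    have h2 : t ^ 2 * V ≤ t ^ 2 * t ^ 2 := mul_le_mul_of_nonneg_left h1 (by positivity)
    nlinarith
  have hM1 : t ^ 2 / 3 - 1 < M := by linarith
  -- half of M
  have hhalf : ((M : ℝ) - 1) / 2 ≤ ((M / 2 : ℕ) : ℝ) := by
    have h1 : M ≤ 2 * (M / 2) + 1 := by omega
    have h2 : (M : ℝ) ≤ 2 * ((M / 2 : ℕ) : ℝ) + 1 := by exact_mod_cast h1
    linarith
  have hM2low : t ≤ ((M / 2 : ℕ) : ℝ) := by nlinarith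
  have hM2up : ((M / 2 : ℕ) : ℝ) ≤ (x : ℝ) ^ (2 : ℕ) := by
    have h1 : ((M / 2 : ℕ) : ℝ) ≤ M := by exact_mod_cast Nat.div_le_self M 2
    have hV1' : 1 ≤ V := le_trans (by
      have := Real.one_le_rpow (by linarith : (1 : ℝ) ≤ x) hκ₁.le
      exact this) hV1
    have h2 : (y : ℝ) / (3 * V) ≤ y := by
      rw [div_le_iff₀ (by positivity)]
      nlinarith
    linarith
  have hDens := hD (M / 2) hM2low hM2up
  have hsum := sum_al x a M
  have hO : ∀ p ∈ On x a, p.Prime := fun p hp => (mem_On.1 hp).2.1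
  have hPE := le_PE hO (M / 2)
  have hPP := hP x (κ / 2) a hxN
  set P0 := ∏ p ∈ On x a, (1 - 1 / (p : ℝ)) with hP0
  set PQ := ∏ s ∈ Qs x (κ / 2) a, (1 - 1 / ((s : ℝ) - 1)) with hPQ
  have hP00 : 0 ≤ P0 := Finset.prod_nonneg fun p hp => fac_nonneg (hO p hp)
  have hPQ0 : 0 ≤ PQ := by
    refine Finset.prod_nonneg fun s hs => ?_
    have h5 : (3 : ℝ) ≤ s := by exact_mod_cast (mem_Qs.1 hs).1.1
    have : 1 / ((s : ℝ) - 1) ≤ 1 := by
      rw [div_le_one (by linarith)]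
      linarith
    linarith
  have hM3 : (M : ℝ) / 3 ≤ ((M / 2 : ℕ) : ℝ) := by nlinarith
  have hS1 : c₁ * ((M : ℝ) / 3) * P0 ≤ ∑ m ∈ Icc 1 M, al x a m := by
    refine le_trans ?_ (hDens.trans hsum)
    have h1 : c₁ * ((M : ℝ) / 3) ≤ c₁ * ((M / 2 : ℕ) : ℝ) := mul_le_mul_of_nonneg_left hM3 hc₁.le
    exact mul_le_mul h1 hPE hP00 (by positivity)
  have hVM : (y : ℝ) / 6 ≤ V * M := by
    have h1 : V * ((y : ℝ) / (3 * V) - 1) ≤ V * M := mul_le_mul_of_nonneg_left hMlow.le hVpos.le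
    have h2 : V * ((y : ℝ) / (3 * V) - 1) = y / 3 - V := by
      field_simp
    have h3 : V ≤ y / 6 := by
      have h4 : V ≤ t ^ 2 := by rw [← ht2]; exact hV2
      have h5 : t ^ 2 * 6 ≤ t ^ 4 := by nlinarith [sq_nonneg (t ^ 2), ht7]
      linarith
    linarith
  have hlow : c * c₁ * c₂ / 18 * (y / Real.log x) ≤
      c * V * PQ * ∑ m ∈ Icc 1 M, al x a m := by
    calc c * c₁ * c₂ / 18 * (y / Real.log x)
        = c * c₁ / 3 * (y / 6) * (c₂ / Real.log x) := by ring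
      _ ≤ c * c₁ / 3 * (V * M) * (PQ * P0) := by
          refine mul_le_mul ?_ hPP (by positivity) (by positivity)
          exact mul_le_mul_of_nonneg_left hVM (by positivity)
      _ = c * V * PQ * (c₁ * ((M : ℝ) / 3) * P0) := by ring
      _ ≤ _ := mul_le_mul_of_nonneg_left hS1 (by positivity)
  have herr : (y : ℝ) / 3 / Real.log (y / 3) ^ 2 ≤ 4 / 3 * (y / Real.log x ^ 2) := by
    have h1 : Real.log x / 2 ≤ Real.log (y / 3) := by
      have h2 : Real.log x / 2 = Real.log ((x : ℝ) ^ (1 / 2 : ℝ)) := by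
        rw [Real.log_rpow hx0]
        ring
      rw [h2]
      refine Real.log_le_log (Real.rpow_pos_of_pos hx0 _) ?_
      rw [ht2, le_div_iff₀ (by norm_num)]
      have : t ^ 2 * 3 ≤ t ^ 4 := by nlinarith [sq_nonneg (t ^ 2), ht7]
      linarith
    have h2 : (Real.log x / 2) ^ 2 ≤ Real.log (y / 3) ^ 2 :=
      pow_le_pow_left₀ (by positivity) h1 2
    calc (y : ℝ) / 3 / Real.log (y / 3) ^ 2 ≤ (y : ℝ) / 3 / (Real.log x / 2) ^ 2 :=
          div_le_div_of_nonneg_left (by positivity) (by positivity) h2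
      _ = 4 / 3 * (y / Real.log x ^ 2) := by
          field_simp
          ring
  have hfin : 4 / 3 * (y / Real.log x ^ 2) ≤ c * c₁ * c₂ / 36 * (y / Real.log x) := by
    have h1 : 48 ≤ c * c₁ * c₂ * Real.log x := by
      rw [div_le_iff₀ hccc] at hlx
      linarith
    have h2 : 4 / 3 * (y / Real.log x ^ 2) = (48 * (y / Real.log x ^ 2)) / 36 := by ring
    have h3 : c * c₁ * c₂ / 36 * (y / Real.log x) =
        (c * c₁ * c₂ * Real.log x * (y / Real.log x ^ 2)) / 36 := by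
      field_simp
    rw [h2, h3]
    have h4 : 0 ≤ y / Real.log x ^ 2 := by positivity
    have := mul_le_mul_of_nonneg_right h1 h4
    linarith
  have hgoal : c * c₁ * c₂ / 36 * y / Real.log x = c * c₁ * c₂ / 36 * (y / Real.log x) := by ring
  rw [hgoal]
  have h18 : c * c₁ * c₂ / 18 * (y / Real.log x) =
      c * c₁ * c₂ / 36 * (y / Real.log x) + c * c₁ * c₂ / 36 * (y / Real.log x) := by ring
  linarith

end Pool.Agent.Helper66.JS
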